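import Pool.Agent.MP_caba0b_al.H43.Inv0

/-! Bounded solutions of linear systems on a finite set of coordinates. -/

namespace Pool.Agent.MP_caba0b_al.H79

open H43

theorem la : LAStmt := by
  classical
  intro I Y v T Y₀ hY
  let f : Finsupp.supported ℝ ℝ T →ₗ[ℝ] Y →₀ ℝ :=
    Finsupp.linearCombination ℝ v ∘ₗ (Finsupp.supported ℝ ℝ T).subtype
  have : Module.Free ℝ f.range := Module.Free.of_divisionRing ℝ f.range
  have : Module.Projective ℝ f.range := Module.Projective.of_free
  obtain ⟨g₀, hg₀⟩ := f.rangeRestrict.exists_rightInverse_of_surjective f.range_rangeRestrict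
  obtain ⟨g, hg⟩ := LinearMap.exists_extend (K := ℝ) (V' := Finsupp.supported ℝ ℝ T) (p := f.range) g₀
  let e : Y → I →₀ ℝ := fun y => g (Finsupp.single y 1)
  have he : ∀ x, Finsupp.linearCombination ℝ e x = g x := fun x => by
    conv_rhs => rw [← Finsupp.sum_single x]
    simp only [Finsupp.linearCombination_apply, Finsupp.sum, map_sum, e, ← Submodule.coe_smul,
      ← map_smul, Finsupp.smul_single, smul_eq_mul, mul_one, Submodule.coe_sum]
  have h0 : ∀ y, 0 ≤ wn (fun _ => 1) (e y) := fun y => wn_nonneg (fun _ => zero_le_one) _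
  refine ⟨hY.toFinset.biUnion fun y => (e y).support, ∑ y ∈ hY.toFinset, wn (fun _ => 1) (e y),
    Finset.sum_nonneg fun y _ => h0 y, fun i hi => ?_, fun x hx hxY => ?_⟩
  · obtain ⟨y, -, hy⟩ := Finset.mem_biUnion.1 hi
    exact (g (Finsupp.single y 1)).2 hy
  obtain ⟨l, hl, rfl⟩ := (Finsupp.mem_span_image_iff_linearCombination ℝ).1 hx
  refine ⟨Finsupp.linearCombination ℝ e (Finsupp.linearCombination ℝ v l), ?_, ?_,
    (wn_lc_le (fun _ => zero_le_one) e _).trans ?_⟩
  · rw [Finsupp.linearCombination_apply, Finsupp.sum]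
    refine Finsupp.support_finsetSum.trans (Finset.biUnion_subset.2 fun y hy i hi => ?_)
    exact Finset.mem_biUnion.2 ⟨y, hY.mem_toFinset.2 (hxY y (Finsupp.mem_support_iff.1 hy)),
      Finsupp.support_smul hi⟩
  · have h1 := LinearMap.congr_fun hg ⟨_, LinearMap.mem_range_self f ⟨l, hl⟩⟩
    have h2 := congrArg Subtype.val
      (LinearMap.congr_fun hg₀ ⟨_, LinearMap.mem_range_self f ⟨l, hl⟩⟩)
    rw [he]
    exact (congrArg f h1).trans h2
  · rw [← wn_const_mul]
    refine wn_mono fun y hy => ?_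
    rw [mul_one]
    exact Finset.single_le_sum (fun y _ => h0 y) (hY.mem_toFinset.2 (hxY y hy))

end Pool.Agent.MP_caba0b_al.H79
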